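import Pool.Agent.Helper15.UL.GoalsE

/-! # MP_57a173_lc: DIAG, `K2` gives a Borel set whose projection is not Borel. -/

noncomputable section

namespace UL

namespace PkDIAG

open Pool.Agent.Helper97.Ku NU MeasureTheory

variable {I : Type} [LinearOrder I]

/-- The real `r` is represented by `x` at the condition `ω`. -/
structure Rp (ω : Pt I → Pt I) (r : ℕ → BA I) (x : Pt I → ℕ → Bool) : Prop where
  m : ∀ n, MeasurableSet {z | x z n = true}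
  d : ∀ n, Dc ω (r n) {z | x z n = true}

theorem Rp.comp (hM : G_MES) {ω : Pt I → Pt I} {r : ℕ → BA I} {x : Pt I → ℕ → Bool}
    (h : Rp ω r x) {g : Pt I → Pt I} (hg : IsM g) : Rp (ω ∘ g) r (x ∘ g) :=
  ⟨fun n => ((hM I).2.1 g hg) (h.m n), fun n => (h.d n).comp hg⟩

theorem exists_rp (hR : G_REP) (hM : G_MES) [WellFoundedLT I] (hF : HF I) (r : ℕ → BA I)
    {ω : Pt I → Pt I} (hω : IsM ω) : ∃ χ, IsM χ ∧ ∃ x, Rp (ω ∘ χ) r x := by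
  obtain ⟨χ, hχ, x, h1, h2⟩ := hR I hF ℕ r ω hω
  exact ⟨χ, hχ, x, fun n => (hM I).1 Bool _ (h1 n) {true}, h2⟩

theorem measurable_bit (hM : G_MES) {ω : Pt I → Pt I} (hω : IsM ω) (j : I × ℕ) :
    Measurable fun z => ω z j.1 j.2 :=
  (measurable_pi_apply j.2).comp (measurable_subtype_coe.comp
    ((measurable_pi_apply j.1).comp ((hM I).2.1 ω hω)))

theorem meas_bit (hM : G_MES) {ω : Pt I → Pt I} (hω : IsM ω) (j : I × ℕ) :
    MeasurableSet {z | ω z j.1 j.2 = true} :=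
  (measurable_bit hM hω j) (measurableSet_singleton true)

theorem dcc1 (hD : G_DCC) (hM : G_MES) [WellFoundedLT I] (hF : HF I) {ω : Pt I → Pt I}
    (hω : IsM ω) {r : ℕ → BA I} {x : Pt I → ℕ → Bool} (h : Rp ω r x) (c : PF (ℕ ⊕ (I × ℕ))) :
    MeasurableSet {z | c.tr (tv2 (x z) (ω z))} ∧
      Dc ω (c.ev (at2 r)) {z | c.tr (tv2 (x z) (ω z))} := by
  let S : ℕ ⊕ (I × ℕ) → Set (Pt I) :=
    Sum.elim (fun n => {z | x z n = true}) (fun j => {z | ω z j.1 j.2 = true})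
  have e : {z | c.tr (tv2 (x z) (ω z))} = {z | c.tr (fun k => z ∈ S k)} := by
    ext z
    have : tv2 (x z) (ω z) = fun k => z ∈ S k := by
      funext k
      cases k <;> rfl
    simp only [Set.mem_ofPred_eq, this]
  have hm : ∀ k, MeasurableSet (S k) := by
    rintro (n | j)
    · exact h.m n
    · exact meas_bit hM hω j
  rw [e]
  refine ⟨PF.measurableSet_tr hm c, (hD I hF ω hω).2.1 _ (at2 r) S hm ?_ c⟩
  rintro (n | j)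
  · exact h.d n
  · exact Dc.gv hω j

/-- The truth values of two reals and the generic bits. -/
abbrev tv3 (x x' : ℕ → Bool) (z : Pt I) : (ℕ ⊕ ℕ) ⊕ (I × ℕ) → Prop :=
  Sum.elim (Sum.elim (fun n => x n = true) (fun n => x' n = true))
    (fun j => z j.1 j.2 = true)

theorem dcc2 (hD : G_DCC) (hM : G_MES) [WellFoundedLT I] (hF : HF I) {ω : Pt I → Pt I}
    (hω : IsM ω) {r r' : ℕ → BA I} {x x' : Pt I → ℕ → Bool} (h : Rp ω r x) (h' : Rp ω r' x')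
    (c : PF ((ℕ ⊕ ℕ) ⊕ (I × ℕ))) :
    MeasurableSet {z | c.tr (tv3 (x z) (x' z) (ω z))} ∧
      Dc ω (c.ev (Sum.elim (Sum.elim r r') gv)) {z | c.tr (tv3 (x z) (x' z) (ω z))} := by
  let S : (ℕ ⊕ ℕ) ⊕ (I × ℕ) → Set (Pt I) :=
    Sum.elim (Sum.elim (fun n => {z | x z n = true}) (fun n => {z | x' z n = true}))
      (fun j => {z | ω z j.1 j.2 = true})
  have e : {z | c.tr (tv3 (x z) (x' z) (ω z))} = {z | c.tr (fun k => z ∈ S k)} := by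
    ext z
    have : tv3 (x z) (x' z) (ω z) = fun k => z ∈ S k := by
      funext k
      rcases k with (k | k) | k <;> rfl
    simp only [Set.mem_ofPred_eq, this]
  have hm : ∀ k, MeasurableSet (S k) := by
    rintro ((n | n) | j)
    · exact h.m n
    · exact h'.m n
    · exact meas_bit hM hω j
  rw [e]
  refine ⟨PF.measurableSet_tr hm c, (hD I hF ω hω).2.1 _ _ S hm ?_ c⟩
  rintro ((n | n) | j)
  · exact h.d n
  · exact h'.d n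
  · exact Dc.gv hω j

theorem fT_iff {x : ℕ → Bool} {z : Pt I} {T : ℕ → PF (ℕ ⊕ (I × ℕ))} {n : ℕ} :
    fT T x (fun j => z j.1 j.2) n = true ↔ (T n).tr (tv2 x z) := by
  unfold fT
  simp only [decide_eq_true_iff]

theorem iffV_compl1 {L : Type} [CompleteBooleanAlgebra L] (X C : L) :
    C ⊓ Xᶜ ≤ (iffV X C)ᶜ := by
  rw [le_compl_iff_disjoint_left]
  unfold iffV
  rw [disjoint_iff_inf_le]
  calc ((X ⇨ C) ⊓ (C ⇨ X)) ⊓ (C ⊓ Xᶜ) ≤ ((C ⇨ X) ⊓ C) ⊓ Xᶜ := by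
        refine le_inf (le_inf (inf_le_left.trans inf_le_right) (inf_le_right.trans inf_le_left))
          (inf_le_right.trans inf_le_right)
    _ ≤ X ⊓ Xᶜ := inf_le_inf_right _ himp_inf_le
    _ = ⊥ := inf_compl_self X
    _ ≤ ⊥ := le_rfl

theorem iffV_compl2 {L : Type} [CompleteBooleanAlgebra L] (X C : L) :
    X ⊓ Cᶜ ≤ (iffV X C)ᶜ := by
  rw [le_compl_iff_disjoint_left]
  unfold iffV
  rw [disjoint_iff_inf_le]
  calc ((X ⇨ C) ⊓ (C ⇨ X)) ⊓ (X ⊓ Cᶜ) ≤ ((X ⇨ C) ⊓ X) ⊓ Cᶜ := by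
        refine le_inf (le_inf (inf_le_left.trans inf_le_left) (inf_le_right.trans inf_le_left))
          (inf_le_right.trans inf_le_right)
    _ ≤ C ⊓ Cᶜ := inf_le_inf_right _ himp_inf_le
    _ = ⊥ := inf_compl_self C
    _ ≤ ⊥ := le_rfl

theorem thm : UL.G_WFM → UL.G_WIT → UL.G_CDP → UL.G_BP → UL.G_REP → UL.G_TRU → UL.G_DEF →
    UL.G_DCC → UL.G_MES → UL.G_DIAG := by
  intro hWFM hWIT hCDP hBP hREP hTRU hDEF hDCC hMES I _ _ _ hF ι B r b hK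
  obtain ⟨T, hT⟩ := hK
  obtain ⟨W, hW⟩ := hWFM (I × ℕ) T
  refine ⟨W, fun c => ?_⟩
  -- the generic bits used by `c`
  obtain ⟨A, hAc, hA⟩ := hCDP.2.2 _ c
  obtain ⟨i₀⟩ : Nonempty I := inferInstance
  have hA' : (insert (i₀, 0) {j : I × ℕ | (Sum.inr j : ℕ ⊕ (I × ℕ)) ∈ A}).Countable :=
    (hAc.preimage Sum.inr_injective).insert _
  obtain ⟨e, he⟩ := hA'.exists_eq_range ⟨_, Set.mem_insert _ _⟩
  have heA : ∀ j : I × ℕ, (Sum.inr j : ℕ ⊕ (I × ℕ)) ∈ A → ∃ k, e k = j := fun j hj => by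
    have : j ∈ Set.range e := he ▸ Set.mem_insert_of_mem _ hj
    exact this
  classical
  let ga : (ℕ → Bool) → I × ℕ → Bool := fun a j => if h : ∃ k, e k = j then a (Nat.find h) else false
  have hga : ∀ (g : I × ℕ → Bool) (m : ℕ), ga (fun n => g (e n)) (e m) = g (e m) := by
    intro g m
    have h : ∃ k, e k = e m := ⟨m, rfl⟩
    simp only [ga]
    rw [dif_pos h, Nat.find_spec h]
  let R : Set ((ℕ → Bool) × (ℕ → Bool)) :=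
    {q | ¬ c.tr (Sum.elim (fun n => q.1 n = true) (fun j => ga q.2 j = true))}
  have hR : MeasurableSet R := by
    let S : ℕ ⊕ (I × ℕ) → Set ((ℕ → Bool) × (ℕ → Bool)) :=
      Sum.elim (fun n => {q | q.1 n = true}) (fun j => {q | ga q.2 j = true})
    have e1 : R = {q | c.tr (fun k => q ∈ S k)}ᶜ := by
      ext q
      have : (Sum.elim (fun n => q.1 n = true) (fun j => ga q.2 j = true)) =
          fun k => q ∈ S k := by
        funext k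
        cases k <;> rfl
      simp only [R, Set.mem_ofPred_eq, Set.mem_compl_iff, this]
    rw [e1]
    refine (PF.measurableSet_tr ?_ c).compl
    rintro (n | j)
    · have h1 : Measurable fun q : (ℕ → Bool) × (ℕ → Bool) => q.1 n :=
        (measurable_pi_apply n).comp measurable_fst
      exact h1 (measurableSet_singleton true)
    · by_cases h : ∃ k, e k = j
      · have e2 : S (Sum.inr j) = {q | q.2 (Nat.find h) = true} := by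
          ext q
          simp only [S, ga, Sum.elim_inr, Set.mem_ofPred_eq, dif_pos h]
        rw [e2]
        have h1 : Measurable fun q : (ℕ → Bool) × (ℕ → Bool) => q.2 (Nat.find h) :=
          (measurable_pi_apply (Nat.find h)).comp measurable_snd
        exact h1 (measurableSet_singleton true)
      · have e2 : S (Sum.inr j) = ∅ := by
          ext q
          simp only [S, ga, Sum.elim_inr, Set.mem_ofPred_eq, dif_neg h]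
          simp
        rw [e2]
        exact MeasurableSet.empty
  obtain ⟨p, w, hw1, hw2, hw3⟩ := hWIT R hR
  have hRc : ∀ (x : ℕ → Bool) (z : Pt I),
      ((x, fun n => z (e n).1 (e n).2) ∈ R ↔ ¬ c.tr (tv2 x z)) := by
    intro x z
    simp only [R, Set.mem_ofPred_eq]
    refine not_congr (hA _ _ ?_)
    rintro (n | j) hj
    · exact Iff.rfl
    · obtain ⟨m, rfl⟩ := heA j hj
      have := hga (fun j => z j.1 j.2) m
      simp only [Sum.elim_inr]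
      rw [this]
  -- use of `K2`
  have hK : ∀ ω : Pt I → Pt I, Fc ω b → ∀ ρ : ℕ → BA I, ∃ k, IsM k ∧ ∃ i, Fc (ω ∘ k) (B i) ∧
      ∀ j, Fc (ω ∘ k) (iffV (ρ j) ((T j).ev (at2 (r i)))) := by
    intro ω hω ρ
    have h1 := (Fc.iSup_iff.1 (hω.mono (hT ρ))).2 id IsM.id'
    obtain ⟨k, hk, i, hi⟩ := h1
    have h2 := Fc.inf_iff.1 hi
    exact ⟨k, hk, i, h2.1, fun j => (Fc.iInf_iff.1 h2.2).2 j⟩
  rw [Fc.le_iff]
  intro f hf
  rw [Fc.iSup_iff]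
  refine ⟨hf.1, fun g₀ hg₀ => ?_⟩
  have hω₀ : Fc (f ∘ g₀) b := hf.comp hg₀
  obtain ⟨ω₀, hω₀'⟩ : ∃ ω₀, ω₀ = f ∘ g₀ := ⟨_, rfl⟩
  rw [← hω₀'] at hω₀
  suffices hs : ∃ k, IsM k ∧ ∃ i, Fc (ω₀ ∘ k) (B i) ∧ Fc (ω₀ ∘ k)
      (iffV (⨆ j, (B j ⊓ W.ev (Sum.elim (Sum.elim (r i) (r j)) gv)))
        (c.ev (Sum.elim (r i) gv)))ᶜ by
    obtain ⟨k, hk, i, h1, h2⟩ := hs
    rw [hω₀'] at h1 h2
    exact ⟨k, hk, i, Fc.inf_iff.2 ⟨h1, h2⟩⟩
  -- the first use of `K2`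
  let ρ : ℕ → BA I := fun j => if j % 2 = 0 then (if p (j / 2) = true then ⊤ else ⊥)
    else gv (e (j / 2))
  obtain ⟨k₁, hk₁, i, hB1, hT1⟩ := hK ω₀ hω₀ ρ
  obtain ⟨χ₂, hχ₂, x₂, hx₂⟩ := exists_rp hREP hMES hF (r i) hB1.1
  have hB2 := hB1.comp hχ₂
  let Sρ : ℕ → Set (Pt I) := fun j => {z | if j % 2 = 0 then p (j / 2) = true else
    (ω₀ ∘ k₁ ∘ χ₂) z (e (j / 2)).1 (e (j / 2)).2 = true}
  have hSρ : ∀ j, MeasurableSet (Sρ j) ∧ Dc (ω₀ ∘ k₁ ∘ χ₂) (ρ j) (Sρ j) := by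
    intro j
    by_cases h : j % 2 = 0
    · by_cases h' : p (j / 2) = true
      · have e1 : Sρ j = Set.univ := by
          ext z
          simp only [Sρ, Set.mem_ofPred_eq, if_pos h, h', Set.mem_univ]
        have e2 : ρ j = ⊤ := by simp only [ρ, if_pos h, if_pos h']
        rw [e1, e2]
        exact ⟨MeasurableSet.univ, fun χ hχ => ⟨fun _ => Fc.top (hB2.1.comp hχ), fun h =>
          absurd (Set.mem_univ _) (h (Classical.arbitrary _))⟩⟩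
      · have e1 : Sρ j = ∅ := by
          ext z
          simp [Sρ, Set.mem_ofPred_eq, if_pos h, h']
        have e2 : ρ j = ⊥ := by simp only [ρ, if_pos h, if_neg h']
        rw [e1, e2]
        refine ⟨MeasurableSet.empty, fun χ hχ => ⟨fun h => absurd (h (Classical.arbitrary _))
          (Set.notMem_empty _), fun _ => ?_⟩⟩
        rw [compl_bot]
        exact Fc.top (hB2.1.comp hχ)
    · have e1 : Sρ j = {z | (ω₀ ∘ k₁ ∘ χ₂) z (e (j / 2)).1 (e (j / 2)).2 = true} := by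
        ext z
        simp only [Sρ, Set.mem_ofPred_eq, if_neg h]
      have e2 : ρ j = gv (e (j / 2)) := by simp only [ρ, if_neg h]
      rw [e1, e2]
      exact ⟨meas_bit hMES hB2.1 _, Dc.gv hB2.1 _⟩
  obtain ⟨g₃, hg₃, hg₃'⟩ := hTRU I hF ℕ (fun j => iffV (ρ j) ((T j).ev (at2 (r i))))
    (fun j => {z | z ∈ Sρ j ↔ z ∈ {z | (T j).tr (tv2 (x₂ z) ((ω₀ ∘ k₁ ∘ χ₂) z))}})
    (ω₀ ∘ k₁ ∘ χ₂) hB2.1
    (fun j => by
      have h1 := (hSρ j).1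
      have h2 := (dcc1 hDCC hMES hF hB2.1 hx₂ (T j)).1
      have : {z | z ∈ Sρ j ↔ z ∈ {z | (T j).tr (tv2 (x₂ z) ((ω₀ ∘ k₁ ∘ χ₂) z))}} =
          (Sρ j ∩ {z | (T j).tr (tv2 (x₂ z) ((ω₀ ∘ k₁ ∘ χ₂) z))}) ∪
          ((Sρ j)ᶜ ∩ {z | (T j).tr (tv2 (x₂ z) ((ω₀ ∘ k₁ ∘ χ₂) z))}ᶜ) := by
        ext z
        simp only [Set.mem_union, Set.mem_inter_iff, Set.mem_compl_iff, Set.mem_ofPred_eq]
        tauto
      rw [this]
      exact (h1.inter h2).union (h1.compl.inter h2.compl))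
    (fun j => ((hDCC I hF _ hB2.1).2.2 _ _ _ _ (hSρ j).1
      (dcc1 hDCC hMES hF hB2.1 hx₂ (T j)).1 (hSρ j).2
      (dcc1 hDCC hMES hF hB2.1 hx₂ (T j)).2).2.2.2)
    (fun j => (hT1 j).comp hχ₂)
  -- the condition `ω₃`
  obtain ⟨ω₃, hω₃⟩ : ∃ ω₃, ω₃ = ω₀ ∘ (k₁ ∘ χ₂ ∘ g₃) := ⟨_, rfl⟩
  obtain ⟨x₃, hx₃⟩ : ∃ x₃, x₃ = x₂ ∘ g₃ := ⟨_, rfl⟩
  have hM3 : IsM (k₁ ∘ χ₂ ∘ g₃) := hk₁.comp (hχ₂.comp hg₃)
  have hR3 : Rp ω₃ (r i) x₃ := by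
    rw [hω₃, hx₃]
    exact hx₂.comp hMES hg₃
  have hB3 : Fc ω₃ (B i) := by
    rw [hω₃]
    exact hB2.comp hg₃
  have hP3 : ∀ z n, fT T (x₃ z) (fun j => ω₃ z j.1 j.2) (2 * n) = p n := by
    intro z n
    rw [Bool.eq_iff_iff, fT_iff]
    have h1 := hg₃' (2 * n) z
    have e1 : (2 * n) % 2 = 0 := by omega
    have e2 : (2 * n) / 2 = n := by omega
    simp only [Sρ, Set.mem_ofPred_eq, if_pos e1, e2] at h1
    rw [hω₃, hx₃]
    exact h1.symm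
  have hQ3 : ∀ z n, fT T (x₃ z) (fun j => ω₃ z j.1 j.2) (2 * n + 1) = ω₃ z (e n).1 (e n).2 := by
    intro z n
    rw [Bool.eq_iff_iff, fT_iff]
    have h1 := hg₃' (2 * n + 1) z
    have e1 : ¬ (2 * n + 1) % 2 = 0 := by omega
    have e2 : (2 * n + 1) / 2 = n := by omega
    simp only [Sρ, Set.mem_ofPred_eq, if_neg e1, e2] at h1
    rw [hω₃, hx₃]
    exact h1.symm
  suffices hs : ∃ k, IsM k ∧ Fc (ω₃ ∘ k)
      (iffV (⨆ j, (B j ⊓ W.ev (Sum.elim (Sum.elim (r i) (r j)) gv)))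
        (c.ev (Sum.elim (r i) gv)))ᶜ by
    obtain ⟨k, hk, h2⟩ := hs
    rw [hω₃] at h2 hB3
    exact ⟨(k₁ ∘ χ₂ ∘ g₃) ∘ k, hM3.comp hk, i, hB3.comp hk, h2⟩
  have hb3 : Fc ω₃ b := by
    rw [hω₃]
    exact hω₀.comp hM3
  clear hω₃ hx₃ hg₃' hx₂ hSρ hB2 hB1 hT1
  -- the dichotomy
  obtain ⟨g₄, hg₄, h4⟩ := (hBP I hF).1 _ (dcc1 hDCC hMES hF hb3.1 hR3 c).1 id IsM.id'
  refine Exists.imp (fun k hk => hk) ?_
  rcases h4 with h4 | h4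
  · -- case 1
    refine ⟨g₄, hg₄, ?_⟩
    refine Fc.mono ?_ (iffV_compl1 _ _)
    rw [Fc.inf_iff]
    constructor
    · exact ((dcc1 hDCC hMES hF hb3.1 hR3 c).2 g₄ hg₄).1 h4
    · rw [compl_iSup, Fc.iInf_iff]
      refine ⟨hb3.1.comp hg₄, fun j => ?_⟩
      rw [Fc.compl_iff]
      refine ⟨hb3.1.comp hg₄, fun g hg hc => ?_⟩
      obtain ⟨χ, hχ, x', hx'⟩ := exists_rp hREP hMES hF (r j) hc.1
      have hcχ := (Fc.inf_iff.1 (hc.comp hχ)).2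
      have hm5 : IsM (g₄ ∘ g ∘ χ) := hg₄.comp (hg.comp hχ)
      have hR5 : Rp (ω₃ ∘ (g₄ ∘ g ∘ χ)) (r i) (x₃ ∘ (g₄ ∘ g ∘ χ)) := hR3.comp hMES hm5
      have hd := dcc2 hDCC hMES hF hcχ.1 hR5 hx' W
      obtain ⟨g₆, hg₆, h6⟩ := hTRU I hF Unit (fun _ => _) (fun _ => _) _ hcχ.1 (fun _ => hd.1)
        (fun _ => hd.2) (fun _ => hcχ)
      have h7 := h6 () (Classical.arbitrary _)
      generalize g₆ (Classical.arbitrary _) = z at h7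
      have h8 := (hW _ _ _).1 h7
      have h9 : (fun n => fT T ((x₃ ∘ (g₄ ∘ g ∘ χ)) z)
          (fun j => (ω₃ ∘ (g₄ ∘ g ∘ χ)) z j.1 j.2) (2 * n)) = p :=
        funext fun n => hP3 ((g₄ ∘ g ∘ χ) z) n
      have h10 : (fun n => fT T ((x₃ ∘ (g₄ ∘ g ∘ χ)) z)
          (fun j => (ω₃ ∘ (g₄ ∘ g ∘ χ)) z j.1 j.2) (2 * n + 1)) =
          fun n => (ω₃ ∘ (g₄ ∘ g ∘ χ)) z (e n).1 (e n).2 :=
        funext fun n => hQ3 ((g₄ ∘ g ∘ χ) z) n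
      have h11 : Psi ((x₃ ∘ (g₄ ∘ g ∘ χ)) z)
          (fun n => (ω₃ ∘ (g₄ ∘ g ∘ χ)) z (e n).1 (e n).2) p
          (fT T (x' z) (fun j => (ω₃ ∘ (g₄ ∘ g ∘ χ)) z j.1 j.2)) := by
        rw [← h10]
        conv => arg 3; rw [← h9]
        exact h8
      refine hw3 _ _ ?_ _ h11
      rw [hRc]
      rw [not_not]
      exact h4 (g (χ z))
  · -- case 2
    choose ρ' hρ' using fun n => hDEF I (ω₃ ∘ g₄) (hb3.1.comp hg₄)
      {z | w (x₃ (g₄ z)) (fun n => ω₃ (g₄ z) (e n).1 (e n).2) n = true}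
    obtain ⟨k₅, hk₅, j, hB5, hT5⟩ := hK (ω₃ ∘ g₄) (hb3.comp hg₄) ρ'
    obtain ⟨χ, hχ, x', hx'⟩ := exists_rp hREP hMES hF (r j) hB5.1
    have hm5 : IsM (g₄ ∘ k₅ ∘ χ) := hg₄.comp (hk₅.comp hχ)
    have hR5 : Rp (ω₃ ∘ (g₄ ∘ k₅ ∘ χ)) (r i) (x₃ ∘ (g₄ ∘ k₅ ∘ χ)) := hR3.comp hMES hm5
    have hM5 : IsM (ω₃ ∘ (g₄ ∘ k₅ ∘ χ)) := hb3.1.comp hm5
    let S5 : ℕ → Set (Pt I) := fun n => {z | w (x₃ ((g₄ ∘ k₅ ∘ χ) z))
      (fun n => ω₃ ((g₄ ∘ k₅ ∘ χ) z) (e n).1 (e n).2) n = true}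
    have hS5 : ∀ n, MeasurableSet (S5 n) := by
      intro n
      have hx5 : Measurable fun z => x₃ ((g₄ ∘ k₅ ∘ χ) z) := by
        rw [measurable_pi_iff]
        intro m
        exact measurable_to_bool (hR5.m m)
      have ha5 : Measurable fun z => fun n => ω₃ ((g₄ ∘ k₅ ∘ χ) z) (e n).1 (e n).2 := by
        rw [measurable_pi_iff]
        intro m
        exact measurable_bit hMES hM5 (e m)
      exact (hx5.prodMk ha5) (hw1 n)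
    have hd5 : ∀ n, Dc (ω₃ ∘ (g₄ ∘ k₅ ∘ χ)) (ρ' n) (S5 n) := fun n =>
      (hρ' n).comp (hk₅.comp hχ)
    obtain ⟨g₆, hg₆, h6⟩ := hTRU I hF ℕ (fun n => iffV (ρ' n) ((T n).ev (at2 (r j))))
      (fun n => {z | z ∈ S5 n ↔ z ∈ {z | (T n).tr (tv2 (x' z) ((ω₃ ∘ (g₄ ∘ k₅ ∘ χ)) z))}})
      (ω₃ ∘ (g₄ ∘ k₅ ∘ χ)) hM5
      (fun n => by
        have h1 := hS5 n
        have h2 := (dcc1 hDCC hMES hF hM5 hx' (T n)).1
        have : {z | z ∈ S5 n ↔ z ∈ {z | (T n).tr (tv2 (x' z) ((ω₃ ∘ (g₄ ∘ k₅ ∘ χ)) z))}} =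
            (S5 n ∩ {z | (T n).tr (tv2 (x' z) ((ω₃ ∘ (g₄ ∘ k₅ ∘ χ)) z))}) ∪
            ((S5 n)ᶜ ∩ {z | (T n).tr (tv2 (x' z) ((ω₃ ∘ (g₄ ∘ k₅ ∘ χ)) z))}ᶜ) := by
          ext z
          simp only [Set.mem_union, Set.mem_inter_iff, Set.mem_compl_iff, Set.mem_ofPred_eq]
          tauto
        rw [this]
        exact (h1.inter h2).union (h1.compl.inter h2.compl))
      (fun n => ((hDCC I hF _ hM5).2.2 _ _ _ _ (hS5 n)
        (dcc1 hDCC hMES hF hM5 hx' (T n)).1 (hd5 n)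
        (dcc1 hDCC hMES hF hM5 hx' (T n)).2).2.2.2)
      (fun n => (hT5 n).comp hχ)
    have hd := dcc2 hDCC hMES hF hM5 hR5 hx' W
    have h7 : ∀ z, W.tr (tv3 ((x₃ ∘ (g₄ ∘ k₅ ∘ χ)) (g₆ z)) (x' (g₆ z))
        ((ω₃ ∘ (g₄ ∘ k₅ ∘ χ)) (g₆ z))) := by
      intro z
      refine (hW ((x₃ ∘ (g₄ ∘ k₅ ∘ χ)) (g₆ z)) (x' (g₆ z))
        (fun j => (ω₃ ∘ (g₄ ∘ k₅ ∘ χ)) (g₆ z) j.1 j.2)).2 ?_
      have h9 : (fun n => fT T ((x₃ ∘ (g₄ ∘ k₅ ∘ χ)) (g₆ z))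
          (fun j => (ω₃ ∘ (g₄ ∘ k₅ ∘ χ)) (g₆ z) j.1 j.2) (2 * n)) = p :=
        funext fun n => hP3 ((g₄ ∘ k₅ ∘ χ) (g₆ z)) n
      have h10 : (fun n => fT T ((x₃ ∘ (g₄ ∘ k₅ ∘ χ)) (g₆ z))
          (fun j => (ω₃ ∘ (g₄ ∘ k₅ ∘ χ)) (g₆ z) j.1 j.2) (2 * n + 1)) =
          fun n => (ω₃ ∘ (g₄ ∘ k₅ ∘ χ)) (g₆ z) (e n).1 (e n).2 :=
        funext fun n => hQ3 ((g₄ ∘ k₅ ∘ χ) (g₆ z)) n
      have h11 : fT T (x' (g₆ z)) (fun j => (ω₃ ∘ (g₄ ∘ k₅ ∘ χ)) (g₆ z) j.1 j.2) =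
          w ((x₃ ∘ (g₄ ∘ k₅ ∘ χ)) (g₆ z))
            (fun n => (ω₃ ∘ (g₄ ∘ k₅ ∘ χ)) (g₆ z) (e n).1 (e n).2) := by
        funext n
        rw [Bool.eq_iff_iff, fT_iff]
        exact (h6 n z).symm
      rw [h9, h10, h11]
      refine hw2 _ _ ?_
      rw [hRc]
      exact h4 (k₅ (χ (g₆ z)))
    refine ⟨g₄ ∘ k₅ ∘ χ ∘ g₆, hg₄.comp (hk₅.comp (hχ.comp hg₆)), ?_⟩
    refine Fc.mono ?_ (iffV_compl2 _ _)
    rw [Fc.inf_iff]
    constructor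
    · refine Fc.mono ?_ (le_iSup _ j)
      rw [Fc.inf_iff]
      exact ⟨hB5.comp (hχ.comp hg₆), (hd.2 g₆ hg₆).1 h7⟩
    · exact (((dcc1 hDCC hMES hF hb3.1 hR3 c).2 g₄ hg₄).2 h4).comp (hk₅.comp (hχ.comp hg₆))

end PkDIAG

end UL
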